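import Pool.Agent.AT2.Stmts

/-!
# Squad AT2, row UX2: a regular element of order `ℓ ^ a` in a group of rank two
-/

noncomputable section

namespace Pool.Agent.PP.T2.H10

section abstract

variable {V : Type} [CommGroup V]

/-- powers mod the group of the `ℓ`-th powers -/
theorem fr_mem {ℓ m : ℕ} (hm : Nat.Coprime ℓ m) (Φ : Subgroup V) (hΦ : ∀ v : V, v ^ ℓ ∈ Φ)
    {w : V} (h : w ^ m ∈ Φ) : w ∈ Φ := by
  have h1 : (w : V) = (w ^ ℓ) ^ (Nat.gcdA ℓ m) * (w ^ m) ^ (Nat.gcdB ℓ m) := by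
    rw [← zpow_natCast w ℓ, ← zpow_natCast w m, ← zpow_mul, ← zpow_mul, ← zpow_add]
    have h2 := Nat.gcd_eq_gcd_ab ℓ m
    rw [hm] at h2
    rw [← h2]
    simp
  rw [h1]
  exact Φ.mul_mem (Φ.zpow_mem (hΦ w) _) (Φ.zpow_mem h _)

/-- the Frattini argument -/
theorem fr_top {ℓ a : ℕ} (W Φ : Subgroup V) (hΦ : ∀ v ∈ Φ, ∃ z : V, v = z ^ ℓ)
    (ha : ∀ v : V, v ^ ℓ ^ a = 1) (h : ∀ v : V, ∃ w ∈ W, ∃ f ∈ Φ, v = w * f) (v : V) : v ∈ W := by
  have key : ∀ k : ℕ, ∀ v : V, ∃ w ∈ W, ∃ z : V, v = w * z ^ ℓ ^ k := by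
    intro k
    induction k with
    | zero => exact fun v => ⟨1, W.one_mem, v, by simp⟩
    | succ k ih =>
      intro v
      obtain ⟨w, hw, z, rfl⟩ := ih v
      obtain ⟨w', hw', f, hf, rfl⟩ := h z
      obtain ⟨z', rfl⟩ := hΦ f hf
      refine ⟨w * w' ^ ℓ ^ k, W.mul_mem hw (W.pow_mem hw' _), z', ?_⟩
      rw [mul_pow, ← pow_mul, pow_succ', mul_assoc]
  obtain ⟨w, hw, z, hz⟩ := key a v
  rw [ha, mul_one] at hz
  rw [hz]
  exact hw

/-- the fixed points -/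
def fx (r : MulAut V) : Subgroup V where
  carrier := {v | r v = v}
  one_mem' := map_one r
  mul_mem' := by
    intro u v hu hv
    change r (u * v) = u * v
    rw [map_mul, show r u = u from hu, show r v = v from hv]
  inv_mem' := by
    intro u hu
    change r u⁻¹ = u⁻¹
    rw [map_inv, show r u = u from hu]

theorem mem_fx {r : MulAut V} {v : V} : v ∈ fx r ↔ r v = v := Iff.rfl

/-- the norm is a fixed point -/
theorem norm_mem (r : MulAut V) (m : ℕ) (hr : r ^ m = 1) (v : V) :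
    (∏ i ∈ Finset.range m, (r ^ i) v) ∈ fx r := by
  rw [mem_fx, map_prod]
  have h1 : ∀ i, r ((r ^ i) v) = (r ^ (i + 1)) v := by
    intro i
    rw [pow_succ']
    rfl
  simp only [h1]
  have h2 := Finset.prod_range_succ (fun i => (r ^ i) v) m
  have h3 := Finset.prod_range_succ' (fun i => (r ^ i) v) m
  rw [h2] at h3
  simp only [hr, pow_zero] at h3
  exact (mul_right_cancel h3).symm

/-- an element fixed modulo `Φ` is in `W Φ` -/
theorem fix_mod {ℓ m : ℕ} (hm : Nat.Coprime ℓ m) (r : MulAut V) (hr : r ^ m = 1)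
    (Φ : Subgroup V) (hΦ : ∀ v : V, v ^ ℓ ∈ Φ) (hrΦ : ∀ v ∈ Φ, r v ∈ Φ) {v : V} {f : V}
    (hf : f ∈ Φ) (hv : r v = v * f) : v ∈ fx r ⊔ Φ := by
  have h1 : ∀ i : ℕ, ∃ g ∈ Φ, (r ^ i) v = v * g := by
    intro i
    induction i with
    | zero => exact ⟨1, Φ.one_mem, by simp⟩
    | succ i ih =>
      obtain ⟨g, hg, h⟩ := ih
      refine ⟨f * r g, Φ.mul_mem hf (hrΦ g hg), ?_⟩
      rw [pow_succ', MulAut.mul_apply, h, map_mul, hv, mul_assoc]
  choose g hg h using h1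
  have h2 : ∏ i ∈ Finset.range m, (r ^ i) v = v ^ m * ∏ i ∈ Finset.range m, g i := by
    rw [Finset.prod_congr rfl fun i _ => h i, Finset.prod_mul_distrib]
    simp
  have h3 : v ^ m ∈ fx r ⊔ Φ := by
    have h4 : v ^ m = (∏ i ∈ Finset.range m, (r ^ i) v) * (∏ i ∈ Finset.range m, g i)⁻¹ := by
      rw [h2, mul_inv_cancel_right]
    rw [h4]
    refine Subgroup.mul_mem _ (Subgroup.mem_sup_left (norm_mem r m hr v))
      (Subgroup.mem_sup_right (Φ.inv_mem (Φ.prod_mem fun i _ => hg i)))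
  exact fr_mem hm _ (fun u => Subgroup.mem_sup_right (hΦ u)) h3

/-- a coprime automorphism which is unipotent modulo `Φ` is trivial -/
theorem unip {ℓ m a : ℕ} (hm : Nat.Coprime ℓ m) (r : MulAut V) (hr : r ^ m = 1)
    (Φ : Subgroup V) (hΦ : ∀ v : V, v ^ ℓ ∈ Φ) (hΦ' : ∀ v ∈ Φ, ∃ z : V, v = z ^ ℓ)
    (ha : ∀ v : V, v ^ ℓ ^ a = 1) (x y : V) (hxy : ∀ v : V, ∃ i j : ℤ, v = x ^ i * y ^ j)
    (hy : ∃ f ∈ Φ, r y = y * f) (hx : ∃ k : ℤ, ∃ f ∈ Φ, r x = x * y ^ k * f) : r = 1 := by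
  have hrΦ : ∀ v ∈ Φ, r v ∈ Φ := by
    intro v hv
    obtain ⟨z, rfl⟩ := hΦ' v hv
    rw [map_pow]
    exact hΦ _
  obtain ⟨f, hf, hy⟩ := hy
  have hyW : y ∈ fx r ⊔ Φ := fix_mod hm r hr Φ hΦ hrΦ hf hy
  obtain ⟨k, g, hg, hx⟩ := hx
  obtain ⟨w, hw, p, hp, hwp⟩ := Subgroup.mem_sup.1 (Subgroup.zpow_mem _ hyW k)
  have hx' : r x = x * w * (p * g) := by
    rw [hx, ← hwp]
    simp only [mul_assoc]
  have h1 : ∀ i : ℕ, ∃ q ∈ Φ, (r ^ i) x = x * w ^ i * q := by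
    intro i
    induction i with
    | zero => exact ⟨1, Φ.one_mem, by simp⟩
    | succ i ih =>
      obtain ⟨q, hq, h⟩ := ih
      refine ⟨p * g * r q, Φ.mul_mem (Φ.mul_mem hp hg) (hrΦ q hq), ?_⟩
      rw [pow_succ', MulAut.mul_apply, h, map_mul, map_mul, map_pow, mem_fx.1 hw, hx', pow_succ]
      simp only [mul_assoc, mul_left_comm, mul_comm]
  obtain ⟨q, hq, h2⟩ := h1 m
  rw [hr, MulAut.one_apply] at h2
  have h3 : w ^ m ∈ Φ := by
    have h4 : w ^ m = q⁻¹ := by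
      rw [mul_assoc] at h2
      have h5 : w ^ m * q = 1 := (mul_eq_left.1 h2.symm)
      exact eq_inv_of_mul_eq_one_left h5
    rw [h4]
    exact Φ.inv_mem hq
  have h4 : w ∈ Φ := fr_mem hm Φ hΦ h3
  have hxW : x ∈ fx r ⊔ Φ :=
    fix_mod hm r hr Φ hΦ hrΦ (f := w * (p * g)) (Φ.mul_mem h4 (Φ.mul_mem hp hg))
      (by rw [hx', mul_assoc])
  have h5 : ∀ v : V, v ∈ fx r := by
    refine fr_top (ℓ := ℓ) (a := a) (fx r) Φ hΦ' ha fun v => ?_
    obtain ⟨i, j, rfl⟩ := hxy v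
    have h6 : x ^ i * y ^ j ∈ fx r ⊔ Φ :=
      Subgroup.mul_mem _ (Subgroup.zpow_mem _ hxW i) (Subgroup.zpow_mem _ hyW j)
    obtain ⟨w, hw, p, hp, h7⟩ := Subgroup.mem_sup.1 h6
    exact ⟨w, hw, p, hp, h7.symm⟩
  ext v
  exact h5 v

/-- a proper subgroup of a finite `ℓ`-group has at most `|V| / ℓ` elements -/
theorem card_le {ℓ : ℕ} [hℓ : Fact ℓ.Prime] [Finite V] (hp : IsPGroup ℓ V) (H : Subgroup V)
    {x : V} (hx : x ∉ H) : Nat.card H * ℓ ≤ Nat.card V := by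
  obtain ⟨k, hk⟩ := (IsPGroup.iff_card).1 hp
  have h1 : H.index ∣ ℓ ^ k := hk ▸ Subgroup.index_dvd_card H
  obtain ⟨j, -, hj⟩ := (Nat.dvd_prime_pow hℓ.out).1 h1
  have h2 : j ≠ 0 := by
    intro h0
    rw [h0, pow_zero, Subgroup.index_eq_one] at hj
    exact hx (hj ▸ Subgroup.mem_top x)
  have h3 : ℓ ≤ H.index := by
    rw [hj]
    exact Nat.le_self_pow h2 ℓ
  rw [← Subgroup.card_mul_index H]
  exact Nat.mul_le_mul_left _ h3

/-- the main counting argument -/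
theorem cnt {ℓ n : ℕ} [hℓ : Fact ℓ.Prime] [Finite V] (x y : V)
    (hxy : ∀ v : V, ∃ i j : ℤ, v = x ^ i * y ^ j) (hx : x ^ ℓ ^ n ≠ 1) (hy : y ^ ℓ ^ n = 1)
    (ha : ∀ v : V, v ^ ℓ ^ (n + 1) = 1) (A : Subgroup (MulAut V)) (hA : ¬ ℓ ∣ Nat.card A) :
    ∃ u : V, u ^ ℓ ^ n ≠ 1 ∧ ∀ t ∈ A, t u = u → t = 1 := by
  classical
  have hcop : Nat.Coprime ℓ (Nat.card A) := (Nat.Prime.coprime_iff_not_dvd hℓ.out).2 hA
  have hpow : ∀ t ∈ A, t ^ Nat.card A = 1 := by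
    intro t ht
    have h1 : (⟨t, ht⟩ : A) ^ Nat.card A = 1 := pow_card_eq_one'
    exact congrArg Subtype.val h1
  obtain ⟨Φ, hΦ, hΦ'⟩ : ∃ Φ : Subgroup V, (∀ v : V, v ^ ℓ ∈ Φ) ∧ ∀ v ∈ Φ, ∃ z : V, v = z ^ ℓ :=
    ⟨(powMonoidHom ℓ : V →* V).range, fun v => ⟨v, rfl⟩, fun v hv => by
      obtain ⟨z, hz⟩ := hv
      exact ⟨z, hz.symm⟩⟩
  have hrΦ : ∀ (r : MulAut V), ∀ v ∈ Φ, r v ∈ Φ := by
    intro r v hv
    obtain ⟨z, rfl⟩ := hΦ' v hv
    rw [map_pow]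
    exact hΦ _
  -- powers of `X`
  have hX : (x ^ ℓ ^ n) ^ ℓ = 1 := by rw [← pow_mul, ← pow_succ, ha]
  have hXd : ∀ i : ℤ, (x ^ ℓ ^ n) ^ i = 1 → (ℓ : ℤ) ∣ i := by
    intro i hi
    have h1 : orderOf (x ^ ℓ ^ n) = ℓ := orderOf_eq_prime hX hx
    have h2 := orderOf_dvd_iff_zpow_eq_one.2 hi
    rwa [h1] at h2
  have hP : ∀ i j : ℤ, (x ^ i * y ^ j) ^ ℓ ^ n = (x ^ ℓ ^ n) ^ i := by
    intro i j
    rw [mul_pow, ← zpow_natCast (x ^ i), ← zpow_mul, mul_comm i, zpow_mul, zpow_natCast,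
      ← zpow_natCast (y ^ j), ← zpow_mul, mul_comm j, zpow_mul, zpow_natCast, hy, one_zpow,
      mul_one]
  have hzΦ : ∀ (z : V) (i : ℤ), (ℓ : ℤ) ∣ i → z ^ i ∈ Φ := by
    intro z i hi
    obtain ⟨c, rfl⟩ := hi
    rw [zpow_mul, zpow_natCast]
    exact Φ.zpow_mem (hΦ z) c
  set A0 : Set (MulAut V) := {t | t ∈ A ∧ ∀ v : V, t (v ^ ℓ ^ n) = v ^ ℓ ^ n} with hA0
  -- claim 1
  have h1 : ∀ u : V, u ^ ℓ ^ n ≠ 1 → ∀ t ∈ A, t u = u → t ∈ A0 := by
    intro u hu t ht htu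
    refine ⟨ht, fun v => ?_⟩
    obtain ⟨i, j, rfl⟩ := hxy u
    obtain ⟨i', j', rfl⟩ := hxy v
    rw [hP] at hu ⊢
    have h2 : ¬ (ℓ : ℤ) ∣ i := by
      intro h3
      obtain ⟨c, rfl⟩ := h3
      apply hu
      rw [zpow_mul, zpow_natCast, hX, one_zpow]
    have h3 : IsCoprime (ℓ : ℤ) i :=
      (Nat.prime_iff_prime_int.1 hℓ.out).coprime_iff_not_dvd.2 h2
    obtain ⟨c, d, hcd⟩ := h3
    have h4 : x ^ ℓ ^ n = ((x ^ ℓ ^ n) ^ i) ^ d := by
      rw [← zpow_mul]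
      have h5 : i * d = 1 - ℓ * c := by linarith
      rw [h5, zpow_sub, zpow_mul, zpow_natCast, hX, one_zpow, zpow_one, inv_one, mul_one]
    have h5 : t ((x ^ ℓ ^ n) ^ i) = (x ^ ℓ ^ n) ^ i := by
      rw [← hP i j, map_pow, htu]
    have h6 : t (x ^ ℓ ^ n) = x ^ ℓ ^ n := by
      rw [h4, map_zpow, h5]
    rw [map_zpow, h6]
  -- claim 2
  have h2y : ∀ t ∈ A0, ∃ j : ℕ, j < ℓ ∧ ∃ f ∈ Φ, t y = y ^ j * f := by
    intro t ht
    obtain ⟨i, j, hij⟩ := hxy (t y)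
    have h3 : (t y) ^ ℓ ^ n = 1 := by rw [← map_pow, hy, map_one]
    rw [hij, hP] at h3
    have h4 := hXd i h3
    have h5 : (0 : ℤ) ≤ j % ℓ := Int.emod_nonneg _ (by exact_mod_cast hℓ.out.ne_zero)
    have h6 : j % ℓ < ℓ := Int.emod_lt_of_pos _ (by exact_mod_cast hℓ.out.pos)
    refine ⟨(j % ℓ).toNat, by omega, y ^ (ℓ * (j / ℓ)) * x ^ i,
      Φ.mul_mem (hzΦ y _ ⟨_, rfl⟩) (hzΦ x i h4), ?_⟩
    rw [hij, ← zpow_natCast, Int.toNat_of_nonneg h5, ← mul_assoc, ← zpow_add,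
      Int.emod_add_mul_ediv, mul_comm]
  have h2x : ∀ t ∈ A0, ∃ k : ℤ, ∃ f ∈ Φ, t x = x * y ^ k * f := by
    intro t ht
    obtain ⟨i, j, hij⟩ := hxy (t x)
    have h3 : (t x) ^ ℓ ^ n = x ^ ℓ ^ n := by rw [← map_pow, ht.2]
    rw [hij, hP] at h3
    have h4 : (ℓ : ℤ) ∣ i - 1 := by
      apply hXd
      rw [zpow_sub, h3, zpow_one, mul_inv_cancel]
    refine ⟨j, x ^ (i - 1), hzΦ x _ h4, ?_⟩
    rw [hij, mul_right_comm, ← zpow_one_add]
    congr 2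
    ring
  choose! J hJ g hg hJg using h2y
  -- claim 3
  have h3 : Set.InjOn J A0 := by
    intro t ht s hs hts
    have hr : s⁻¹ * t ∈ A0 := by
      refine ⟨A.mul_mem (A.inv_mem hs.1) ht.1, fun v => ?_⟩
      rw [MulAut.mul_apply, ht.2 v]
      have h4 : s⁻¹ (s (v ^ ℓ ^ n)) = v ^ ℓ ^ n := MulAut.inv_apply_self _ _ _
      rwa [hs.2 v] at h4
    have h4 : s⁻¹ * t = 1 := by
      refine unip hcop (s⁻¹ * t) (hpow _ hr.1) Φ hΦ hΦ' ha x y hxy ?_ (h2x _ hr)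
      refine ⟨s⁻¹ ((g s)⁻¹ * g t), hrΦ _ _ (Φ.mul_mem (Φ.inv_mem (hg s hs)) (hg t ht)), ?_⟩
      have h5 : t y = s y * ((g s)⁻¹ * g t) := by
        rw [hJg t ht, hJg s hs, hts]
        simp only [mul_assoc, mul_inv_cancel_left]
      rw [MulAut.mul_apply, h5, map_mul]
      congr 1
      exact MulAut.inv_apply_self _ _ _
    exact (inv_mul_eq_one.1 h4).symm
  have hAfin : A0.Finite := Set.toFinite _
  -- claim 4
  have h4 : A0.ncard < ℓ := by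
    by_cases hyΦ : y ∈ Φ
    · have h5 : A0 ⊆ {1} := by
        intro t ht
        refine unip hcop t (hpow _ ht.1) Φ hΦ hΦ' ha x y hxy ?_ (h2x _ ht)
        exact ⟨y⁻¹ * t y, Φ.mul_mem (Φ.inv_mem hyΦ) (hrΦ t y hyΦ), by simp⟩
      have h6 := Set.ncard_le_ncard h5
      rw [Set.ncard_singleton] at h6
      have := hℓ.out.two_le
      omega
    · have h5 : J '' A0 ⊆ (Finset.Ico 1 ℓ : Set ℕ) := by
        rintro _ ⟨t, ht, rfl⟩
        rw [Finset.mem_coe, Finset.mem_Ico]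
        refine ⟨?_, hJ t ht⟩
        rw [Nat.one_le_iff_ne_zero]
        intro h6
        apply hyΦ
        have h7 := hJg t ht
        rw [h6, pow_zero, one_mul] at h7
        have h8 : t⁻¹ (t y) = y := MulAut.inv_apply_self _ _ _
        rw [← h8, h7]
        exact hrΦ _ _ (hg t ht)
      have h6 := Set.ncard_le_ncard h5 (Finset.finite_toSet _)
      rw [h3.ncard_image, Set.ncard_coe_finset, Nat.card_Ico] at h6
      have := hℓ.out.two_le
      omega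
  -- claim 5
  by_contra hcon
  push Not at hcon
  have hp : IsPGroup ℓ V := fun v => ⟨n + 1, ha v⟩
  have := Fintype.ofFinite V
  set Ω : Subgroup V := (powMonoidHom (ℓ ^ n) : V →* V).ker with hΩ
  have hΩm : ∀ v : V, v ∈ Ω ↔ v ^ ℓ ^ n = 1 := fun v => Iff.rfl
  have h1A : (1 : MulAut V) ∈ A0 := ⟨A.one_mem, fun v => rfl⟩
  set B : MulAut V → Subgroup V := fun t => if t = 1 then Ω else fx t with hB
  have hBc : ∀ t, Nat.card (B t) * ℓ ≤ Nat.card V := by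
    intro t
    by_cases ht : t = 1
    · refine card_le hp _ (x := x) ?_
      rw [hB]
      simp only [ht, if_true, hΩm]
      exact hx
    · obtain ⟨v, hv⟩ : ∃ v, t v ≠ v := by
        by_contra h5
        push Not at h5
        exact ht (MulEquiv.ext h5)
      refine card_le hp _ (x := v) ?_
      rw [hB]
      simp only [ht, if_false, mem_fx]
      exact hv
  have hcov : (Finset.univ : Finset V) ⊆
      hAfin.toFinset.biUnion fun t => (Finset.univ.filter fun v => v ∈ B t) := by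
    intro v _
    rw [Finset.mem_biUnion]
    by_cases hv : v ^ ℓ ^ n = 1
    · refine ⟨1, hAfin.mem_toFinset.2 h1A, Finset.mem_filter.2 ⟨Finset.mem_univ _, ?_⟩⟩
      rw [hB]
      simp only [if_true, hΩm]
      exact hv
    · obtain ⟨t, ht, htv, ht1⟩ := hcon v hv
      refine ⟨t, hAfin.mem_toFinset.2 (h1 v hv t ht htv),
        Finset.mem_filter.2 ⟨Finset.mem_univ _, ?_⟩⟩
      rw [hB]
      simp only [ht1, if_false, mem_fx]
      exact htv
  have hle := (Finset.card_le_card hcov).trans Finset.card_biUnion_le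
  have hcf : ∀ t, (Finset.univ.filter fun v => v ∈ B t).card = Nat.card (B t) := by
    intro t
    rw [Nat.card_eq_fintype_card, Fintype.card_subtype]
  simp only [hcf, Finset.card_univ, ← Nat.card_eq_fintype_card] at hle
  have h5 : Nat.card V * ℓ ≤ Nat.card V * A0.ncard := by
    calc Nat.card V * ℓ ≤ (∑ t ∈ hAfin.toFinset, Nat.card (B t)) * ℓ :=
          Nat.mul_le_mul_right _ hle
      _ = ∑ t ∈ hAfin.toFinset, Nat.card (B t) * ℓ := Finset.sum_mul _ _ _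
      _ ≤ ∑ t ∈ hAfin.toFinset, Nat.card V := Finset.sum_le_sum fun t _ => hBc t
      _ = Nat.card V * A0.ncard := by
          rw [Finset.sum_const, smul_eq_mul, Set.ncard_eq_toFinset_card _ hAfin, mul_comm]
  have h6 := Nat.le_of_mul_le_mul_left h5 Nat.card_pos
  omega

/-- `V` has a generator killed by `ℓ ^ n` if its order is small -/
theorem red {ℓ n : ℕ} [hℓ : Fact ℓ.Prime] [Finite V] (x y : V)
    (hxy : ∀ v : V, ∃ i j : ℤ, v = x ^ i * y ^ j) (hx : x ^ ℓ ^ n ≠ 1)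
    (ha : ∀ v : V, v ^ ℓ ^ (n + 1) = 1) (hc : Nat.card V < ℓ ^ (2 * (n + 1))) :
    ∃ y' : V, y' ^ ℓ ^ n = 1 ∧ ∀ v : V, ∃ i j : ℤ, v = x ^ i * y' ^ j := by
  by_cases hY : y ^ ℓ ^ n ∈ Subgroup.zpowers (x ^ ℓ ^ n)
  · obtain ⟨k, hk⟩ := Subgroup.mem_zpowers_iff.1 hY
    refine ⟨y * x ^ (-k), ?_, fun v => ?_⟩
    · rw [mul_pow, ← hk, ← zpow_natCast (x ^ (-k)), ← zpow_mul, ← zpow_natCast x (ℓ ^ n),
        ← zpow_mul, ← zpow_add]
      have h1 : ((ℓ ^ n : ℕ) : ℤ) * k + -k * ((ℓ ^ n : ℕ) : ℤ) = 0 := by ring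
      rw [h1, zpow_zero]
    · obtain ⟨i, j, rfl⟩ := hxy v
      refine ⟨i + k * j, j, ?_⟩
      have h1 : k * j + -k * j = 0 := by ring
      rw [mul_zpow, ← zpow_mul, zpow_add, mul_mul_mul_comm, ← zpow_add, h1, zpow_zero, mul_one]
  · exfalso
    have hX : (x ^ ℓ ^ n) ^ ℓ = 1 := by rw [← pow_mul, ← pow_succ, ha]
    have hYl : (y ^ ℓ ^ n) ^ ℓ = 1 := by rw [← pow_mul, ← pow_succ, ha]
    have hXd : ∀ i : ℤ, (x ^ ℓ ^ n) ^ i = 1 → (ℓ : ℤ) ∣ i := by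
      intro i hi
      have h1 : orderOf (x ^ ℓ ^ n) = ℓ := orderOf_eq_prime hX hx
      have h2 := orderOf_dvd_iff_zpow_eq_one.2 hi
      rwa [h1] at h2
    have key : ∀ i j : ℤ, x ^ i * y ^ j = 1 → ∀ k : ℕ, k ≤ n + 1 →
        ((ℓ ^ k : ℕ) : ℤ) ∣ i ∧ ((ℓ ^ k : ℕ) : ℤ) ∣ j := by
      intro i j hij k
      induction k with
      | zero => intro _; simp
      | succ k ih =>
        intro hk
        obtain ⟨⟨i', hi'⟩, j', hj'⟩ := ih (by omega)
        have h1 : (x ^ ℓ ^ n) ^ i' * (y ^ ℓ ^ n) ^ j' = 1 := by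
          have h2 : (x ^ i * y ^ j) ^ ℓ ^ (n - k) = 1 := by rw [hij, one_pow]
          rw [mul_pow, ← zpow_natCast (x ^ i), ← zpow_natCast (y ^ j), ← zpow_mul, ← zpow_mul]
            at h2
          have h3 : ((ℓ ^ k : ℕ) : ℤ) * ((ℓ ^ (n - k) : ℕ) : ℤ) = ((ℓ ^ n : ℕ) : ℤ) := by
            rw [← Nat.cast_mul, ← pow_add]
            congr 3
            omega
          have h4 : i * ((ℓ ^ (n - k) : ℕ) : ℤ) = ((ℓ ^ n : ℕ) : ℤ) * i' := by
            rw [hi', ← h3]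
            ring
          have h5 : j * ((ℓ ^ (n - k) : ℕ) : ℤ) = ((ℓ ^ n : ℕ) : ℤ) * j' := by
            rw [hj', ← h3]
            ring
          rw [h4, h5, zpow_mul, zpow_mul, zpow_natCast, zpow_natCast] at h2
          exact h2
        have h2 : (ℓ : ℤ) ∣ j' := by
          by_contra h3
          have h4 : IsCoprime (ℓ : ℤ) j' :=
            (Nat.prime_iff_prime_int.1 hℓ.out).coprime_iff_not_dvd.2 h3
          obtain ⟨c, d, hcd⟩ := h4
          apply hY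
          have h5 : y ^ ℓ ^ n = ((y ^ ℓ ^ n) ^ j') ^ d := by
            rw [← zpow_mul]
            have h5 : j' * d = 1 - ℓ * c := by linarith
            rw [h5, zpow_sub, zpow_mul, zpow_natCast, hYl, one_zpow, zpow_one, inv_one, mul_one]
          have h6 : (y ^ ℓ ^ n) ^ j' = (x ^ ℓ ^ n) ^ (-i') := by
            rw [zpow_neg]
            exact eq_inv_of_mul_eq_one_right h1
          rw [h5, h6]
          exact Subgroup.zpow_mem _ (Subgroup.zpow_mem _ (Subgroup.mem_zpowers _) _) _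
        have h3 : (ℓ : ℤ) ∣ i' := by
          obtain ⟨c, rfl⟩ := h2
          rw [zpow_mul (y ^ ℓ ^ n), zpow_natCast, hYl, one_zpow, mul_one] at h1
          exact hXd _ h1
        obtain ⟨c, rfl⟩ := h3
        obtain ⟨d, rfl⟩ := h2
        refine ⟨⟨c, ?_⟩, d, ?_⟩
        · rw [hi', pow_succ, Nat.cast_mul, mul_assoc]
        · rw [hj', pow_succ, Nat.cast_mul, mul_assoc]
    have hy1 : y ^ ℓ ^ n ≠ 1 := fun h => hY (h ▸ Subgroup.one_mem _)
    have hox : orderOf x = ℓ ^ (n + 1) := orderOf_eq_prime_pow hx (ha x)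
    have hoy : orderOf y = ℓ ^ (n + 1) := orderOf_eq_prime_pow hy1 (ha y)
    have hdis : Disjoint (Subgroup.zpowers x) (Subgroup.zpowers y) := by
      rw [Subgroup.disjoint_def]
      intro z hz hz'
      obtain ⟨i, rfl⟩ := Subgroup.mem_zpowers_iff.1 hz
      obtain ⟨j, hj⟩ := Subgroup.mem_zpowers_iff.1 hz'
      have h1 := (key i (-j) (by rw [zpow_neg, hj, mul_inv_cancel]) (n + 1) le_rfl).1
      rw [← hox] at h1
      exact orderOf_dvd_iff_zpow_eq_one.1 h1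
    have h1 := Subgroup.mul_injective_of_disjoint hdis
    have h2 := Nat.card_le_card_of_injective _ h1
    rw [Nat.card_prod, Nat.card_zpowers, Nat.card_zpowers, hox, hoy, ← pow_add] at h2
    have h3 : n + 1 + (n + 1) = 2 * (n + 1) := by ring
    rw [h3] at h2
    omega

end abstract

/-- the group theoretic statement -/
theorem grp {G : Type} [Group G] [Finite G] {ℓ : ℕ} [hℓ : Fact ℓ.Prime] (V T : Subgroup G)
    (hT : T ≤ Subgroup.normalizer (V : Set G)) (hab : ∀ a ∈ V, ∀ b ∈ V, a * b = b * a) {a : ℕ}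
    (ha : 0 < a) (hexp : Monoid.exponent V = ℓ ^ a) (hc : Nat.card V < ℓ ^ (2 * a))
    (hi : ¬ ℓ ∣ (Subgroup.centralizer (V : Set G)).relIndex T)
    (hgen : ∃ x y : G, V = Subgroup.closure {x, y}) :
    ∃ u ∈ V, orderOf u = ℓ ^ a ∧ ∀ t ∈ T, t * u * t⁻¹ = u →
      t ∈ Subgroup.centralizer (V : Set G) := by
  obtain ⟨n, rfl⟩ : ∃ n, a = n + 1 := ⟨a - 1, by omega⟩
  let _ : CommGroup V := { (inferInstance : Group V) with
    mul_comm := fun x y => Subtype.ext (hab x x.2 y y.2) }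
  obtain ⟨x0, y0, hV⟩ := hgen
  have hx0 : x0 ∈ V := by rw [hV]; exact Subgroup.subset_closure (by simp)
  have hy0 : y0 ∈ V := by rw [hV]; exact Subgroup.subset_closure (by simp)
  have htop : Subgroup.closure ({⟨x0, hx0⟩, ⟨y0, hy0⟩} : Set V) = ⊤ := by
    rw [eq_top_iff]
    intro v _
    have h1 : (v : G) ∈ (Subgroup.closure ({⟨x0, hx0⟩, ⟨y0, hy0⟩} : Set V)).map V.subtype := by
      rw [MonoidHom.map_closure, Set.image_pair]
      exact hV.le v.2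
    obtain ⟨w, hw, hwv⟩ := h1
    have h3 : w = v := Subtype.ext hwv
    rw [← h3]
    exact hw
  have hall : ∀ v : V, ∃ i j : ℤ, v = (⟨x0, hx0⟩ : V) ^ i * (⟨y0, hy0⟩ : V) ^ j := by
    intro v
    have h1 : v ∈ Subgroup.closure ({⟨x0, hx0⟩, ⟨y0, hy0⟩} : Set V) := by
      rw [htop]
      exact Subgroup.mem_top v
    obtain ⟨i, j, h⟩ := Subgroup.mem_closure_pair.1 h1
    exact ⟨i, j, h.symm⟩
  have hpow : ∀ v : V, v ^ ℓ ^ (n + 1) = 1 := by
    intro v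
    rw [← hexp]
    exact Monoid.pow_exponent_eq_one v
  set A : Subgroup (MulAut V) :=
    (T.subgroupOf (Subgroup.normalizer (V : Set G))).map V.normalizerMonoidHom with hA
  have hAc : Nat.card A = (Subgroup.centralizer (V : Set G)).relIndex T := by
    rw [hA, ← Subgroup.relIndex_ker, Subgroup.normalizerMonoidHom_ker,
      Subgroup.relIndex_subgroupOf hT]
  have fin : ∀ x y : V, (∀ v : V, ∃ i j : ℤ, v = x ^ i * y ^ j) → x ^ ℓ ^ n ≠ 1 →
      ∃ u ∈ V, orderOf u = ℓ ^ (n + 1) ∧ ∀ t ∈ T, t * u * t⁻¹ = u →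
        t ∈ Subgroup.centralizer (V : Set G) := by
    intro x y hxy hx
    obtain ⟨y', hy', hxy'⟩ := red x y hxy hx hpow hc
    obtain ⟨u, hu, hu'⟩ := cnt x y' hxy' hx hy' hpow A (by rw [hAc]; exact hi)
    refine ⟨u, u.2, ?_, fun t ht htu => ?_⟩
    · rw [Subgroup.orderOf_coe]
      exact orderOf_eq_prime_pow hu (hpow u)
    · have h1 : V.normalizerMonoidHom ⟨t, hT ht⟩ ∈ A :=
        ⟨⟨t, hT ht⟩, ht, rfl⟩
      have h2 := hu' _ h1 (Subtype.ext htu)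
      have h3 : (⟨t, hT ht⟩ : Subgroup.normalizer (V : Set G)) ∈ V.normalizerMonoidHom.ker := h2
      rw [Subgroup.normalizerMonoidHom_ker] at h3
      exact h3
  by_cases hx : (⟨x0, hx0⟩ : V) ^ ℓ ^ n = 1
  · by_cases hy : (⟨y0, hy0⟩ : V) ^ ℓ ^ n = 1
    · exfalso
      have h1 : Monoid.exponent V ∣ ℓ ^ n := by
        refine Monoid.exponent_dvd_of_forall_pow_eq_one fun v => ?_
        obtain ⟨i, j, rfl⟩ := hall v
        rw [mul_pow, ← zpow_natCast, ← zpow_mul, mul_comm i, zpow_mul, zpow_natCast, hx, one_zpow,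
          ← zpow_natCast, ← zpow_mul, mul_comm j, zpow_mul, zpow_natCast, hy, one_zpow, one_mul]
      rw [hexp, Nat.pow_dvd_pow_iff_le_right hℓ.out.one_lt] at h1
      omega
    · refine fin ⟨y0, hy0⟩ ⟨x0, hx0⟩ (fun v => ?_) hy
      obtain ⟨i, j, h⟩ := hall v
      exact ⟨j, i, by rw [h, mul_comm]⟩
  · exact fin _ _ hall hx

open Pool.Agent.Helper51_AWC Pool.Agent.Helper79_WRA Pool.Agent.PP Pool.Agent.PP.KF
open Pool.Agent.PP.K9 Pool.Agent.PP.K9.H97 Pool.Agent.PP.H75 Pool.Agent.PP.T3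

/-- UX2 -/
theorem ux2 : Ux2Stmt := by
  intro ℓ _ F _ _ G _ _ e V γ hL a ha hexp hc hi hgen
  obtain ⟨u, huV, hou, hu⟩ := grp V (Tg V γ) inf_le_left hL.ab ha hexp hc hi hgen
  refine ⟨u, ⟨huV, ?_, ?_⟩, hou⟩
  · rintro rfl
    rw [orderOf_one] at hou
    have h1 : 1 < ℓ ^ a := Nat.one_lt_pow ha.ne' (Fact.out : ℓ.Prime).one_lt
    omega
  · rintro t ⟨ht, htu⟩
    refine hu t ht ?_
    have h1 : t * u = u * t := (Subgroup.mem_centralizer_iff.1 htu u rfl).symm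
    rw [h1, mul_inv_cancel_right]

end Pool.Agent.PP.T2.H10
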